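import Pool.Agent.helper88.Vis.Defs

set_option autoImplicit false

/-!
# MP_6b3417_co, part II, module II-B: existence of the chain of lines (II.2)
-/

namespace Pool.Agent.helper13.Vis

open Pool.Agent.helper47.Vis Pool.Agent.helper88.Vis

/-- The statement of module II-A (edge lemma). -/
def EdgeLemma : Prop :=
  ∀ (V : Finset (ℝ × ℝ)), K5free (V : Set (ℝ × ℝ)) → ∀ (c d : ℝ × ℝ), d ≠ 0 →
    (∀ p ∈ V, 0 ≤ sd c d p) → NonCol (fil V (fun p => 0 < sd c d p)) →
    ∃ c' d' : ℝ × ℝ, d' ≠ 0 ∧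
      (∃ u ∈ V, 0 < sd c d u ∧ sd c' d' u = 0 ∧ ∀ p ∈ V, 0 < sd c d p → sd c d u ≤ sd c d p) ∧
      (∀ p ∈ V, 0 < sd c d p → 0 ≤ sd c' d' p) ∧
      2 ≤ (fil V (fun p => 0 < sd c d p ∧ sd c' d' p = 0)).card ∧
      (fil V (fun p => sd c d p = 0 ∧ 0 ≤ sd c' d' p)).card ≤ 2

/-- Put a new first term in front of a sequence. -/
def pre {α : Type*} (a : α) (f : ℕ → α) : ℕ → α
  | 0 => a
  | n + 1 => f n

@[simp] lemma pre_zero {α : Type*} (a : α) (f : ℕ → α) : pre a f 0 = a := rfl
@[simp] lemma pre_succ {α : Type*} (a : α) (f : ℕ → α) (n : ℕ) : pre a f (n + 1) = f n := rfl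

lemma convex_pos (c d : ℝ × ℝ) : Convex ℝ {p : ℝ × ℝ | 0 < sd c d p} := by
  rw [convex_iff_openSegment_subset]
  intro p hp q hq r hr
  obtain ⟨a, b, ha, hb, -, hr'⟩ := sd_openSegment (c := c) (d := d) hr
  simp only [Set.mem_setOf_eq] at hp hq ⊢
  rw [hr']
  positivity

lemma K5free_fil_pos {V : Finset (ℝ × ℝ)} (hK : K5free (V : Set (ℝ × ℝ))) (c d : ℝ × ℝ) :
    K5free ((fil V (fun p => 0 < sd c d p) : Finset (ℝ × ℝ)) : Set (ℝ × ℝ)) := by
  refine K5free.convex hK (convex_pos c d) (fun p => ?_)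
  simp

/-- A collinear set lies on a line. -/
lemma exists_line_of_not_nonCol (U : Finset (ℝ × ℝ)) (h : ¬ NonCol U) :
    ∃ c d : ℝ × ℝ, d ≠ 0 ∧ ∀ p ∈ U, sd c d p = 0 := by
  by_cases h2 : ∃ a ∈ U, ∃ b ∈ U, a ≠ b
  · obtain ⟨a, ha, b, hb, hab⟩ := h2
    refine ⟨a, b - a, sub_ne_zero.2 hab.symm, fun p hp => ?_⟩
    by_contra hne
    exact h ⟨a, ha, b, hb, p, hp, by simpa [sd, ori] using hne⟩
  · push_neg at h2
    rcases U.eq_empty_or_nonempty with rfl | ⟨a, ha⟩
    · exact ⟨0, (1, 0), by simp, by simp⟩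
    · refine ⟨a, (1, 0), by simp, fun p hp => ?_⟩
      have := h2 a ha p hp
      subst this
      simp [sd]

theorem exists_chain_of (hEL : EdgeLemma) (H : ℕ) : ∀ (V₀ : Finset (ℝ × ℝ)),
    K5free (V₀ : Set (ℝ × ℝ)) → ∀ (c₀ d₀ : ℝ × ℝ), d₀ ≠ 0 → (∀ p ∈ V₀, 0 ≤ sd c₀ d₀ p) →
    2 ≤ (fil V₀ (fun p => sd c₀ d₀ p = 0)).card →
    (∃ V c d, V 0 = V₀ ∧ c 0 = c₀ ∧ d 0 = d₀ ∧ Chain H V c d) ∨
    (∃ L : ℕ → (ℝ × ℝ) × (ℝ × ℝ), (∀ j, (L j).2 ≠ 0) ∧
      ∀ p ∈ V₀, ∃ j ≤ H, sd (L j).1 (L j).2 p = 0) := by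
  induction H with
  | zero =>
    intro V₀ hK c₀ d₀ hd hnn h2
    left
    refine ⟨fun _ => V₀, fun _ => c₀, fun _ => d₀, rfl, rfl, rfl, ?_⟩
    exact
      { K5 := fun _ _ => hK
        dne := fun _ _ => hd
        nonneg := fun _ _ => hnn
        step := fun i hi => absurd hi (Nat.not_lt_zero i)
        two := fun _ _ => h2
        bad := fun i hi => absurd hi (Nat.not_lt_zero i)
        low := fun i hi => absurd hi (Nat.not_lt_zero i) }
  | succ H ih =>
    intro V₀ hK c₀ d₀ hd hnn h2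
    set U := fil V₀ (fun p => 0 < sd c₀ d₀ p) with hU
    by_cases hNC : NonCol U
    · obtain ⟨c', d', hd', ⟨u, hu, hu1, hu2, hu3⟩, hnn', h2', hbad⟩ := hEL V₀ hK c₀ d₀ hd hnn hNC
      have hnnU : ∀ p ∈ U, 0 ≤ sd c' d' p := by
        intro p hp
        rw [hU, mem_fil] at hp
        exact hnn' p hp.1 hp.2
      have h2U : 2 ≤ (fil U (fun p => sd c' d' p = 0)).card := by
        have : fil U (fun p => sd c' d' p = 0)
            = fil V₀ (fun p => 0 < sd c₀ d₀ p ∧ sd c' d' p = 0) := by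
          ext p
          simp only [hU, mem_fil]
          tauto
        rw [this]
        exact h2'
      rcases ih U (K5free_fil_pos hK c₀ d₀) c' d' hd' hnnU h2U with
        ⟨V, c, d, hV0, hc0, hd0, hC⟩ | ⟨L, hL, hcov⟩
      · left
        refine ⟨pre V₀ V, pre c₀ c, pre d₀ d, rfl, rfl, rfl, ?_⟩
        refine
          { K5 := ?_
            dne := ?_
            nonneg := ?_
            step := ?_
            two := ?_
            bad := ?_
            low := ?_ }
        · rintro (_ | i) hi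
          · exact hK
          · exact hC.K5 i (by omega)
        · rintro (_ | i) hi
          · exact hd
          · exact hC.dne i (by omega)
        · rintro (_ | i) hi
          · exact hnn
          · exact hC.nonneg i (by omega)
        · rintro (_ | i) hi
          · simp only [pre_zero, Nat.zero_add]
            exact hV0
          · exact hC.step i (by omega)
        · rintro (_ | i) hi
          · exact h2
          · exact hC.two i (by omega)
        · rintro (_ | i) hi
          · simp only [pre_zero, pre_succ, hc0, hd0]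
            exact hbad
          · exact hC.bad i (by omega)
        · rintro (_ | i) hi
          · simp only [pre_zero, pre_succ, hc0, hd0, hV0]
            refine ⟨u, ?_, hu2, ?_⟩
            · rw [hU, mem_fil]
              exact ⟨hu, hu1⟩
            · intro p hp
              rw [hU, mem_fil] at hp
              exact hu3 p hp.1 hp.2
          · exact hC.low i (by omega)
      · right
        refine ⟨pre (c₀, d₀) L, ?_, ?_⟩
        · rintro (_ | j)
          · exact hd
          · exact hL j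
        · intro p hp
          rcases (hnn p hp).lt_or_eq with hlt | heq
          · obtain ⟨j, hj, hj'⟩ := hcov p (by rw [hU, mem_fil]; exact ⟨hp, hlt⟩)
            exact ⟨j + 1, by omega, hj'⟩
          · exact ⟨0, by omega, heq.symm⟩
    · right
      obtain ⟨c', d', hd', hline⟩ := exists_line_of_not_nonCol U hNC
      refine ⟨pre (c₀, d₀) (fun _ => (c', d')), ?_, ?_⟩
      · rintro (_ | j)
        · exact hd
        · exact hd'
      · intro p hp
        rcases (hnn p hp).lt_or_eq with hlt | heq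
        · exact ⟨1, by omega, hline p (by rw [hU, mem_fil]; exact ⟨hp, hlt⟩)⟩
        · exact ⟨0, by omega, heq.symm⟩

end Pool.Agent.helper13.Vis
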